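import Mathlib

set_option autoImplicit false

/-! Dirichlet's theorem on simultaneous approximation, with primitive integer vectors. -/

namespace Pool.Agent.K1H84.VT

/-- Dirichlet's theorem on simultaneous approximation -/
theorem dirichlet {N : ℕ} (q : ℕ) (hq : 1 ≤ q) (α : Fin N → ℝ) :
    ∃ j : ℕ, 1 ≤ j ∧ j ≤ q ^ N ∧ ∃ k : Fin N → ℤ, ∀ i, |(j : ℝ) * α i - k i| ≤ 1 / q := by
  have hqR : (0:ℝ) < q := by exact_mod_cast hq
  let F : Fin (q ^ N + 1) → (Fin N → Fin q) := fun k i =>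
    ⟨⌊Int.fract ((k : ℕ) * α i) * q⌋₊, by
      rw [Nat.floor_lt (mul_nonneg (Int.fract_nonneg _) hqR.le)]
      have := Int.fract_lt_one ((k : ℕ) * α i)
      nlinarith⟩
  have hcard : Fintype.card (Fin N → Fin q) < Fintype.card (Fin (q ^ N + 1)) := by
    simp
  obtain ⟨k, k', hne, hF⟩ := Fintype.exists_ne_map_eq_of_card_lt F hcard
  wlog hlt : (k : ℕ) < (k' : ℕ) generalizing k k'
  · refine this k' k hne.symm hF.symm ?_
    have h1 : (k : ℕ) ≠ (k' : ℕ) := fun h => hne (Fin.ext h)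
    omega
  refine ⟨(k' : ℕ) - (k : ℕ), by omega, by have := k'.2; omega,
    fun i => ⌊((k' : ℕ) : ℝ) * α i⌋ - ⌊((k : ℕ) : ℝ) * α i⌋, ?_⟩
  intro i
  have h1 : F k i = F k' i := by rw [hF]
  have h2 : ⌊Int.fract (((k : ℕ) : ℝ) * α i) * q⌋₊ = ⌊Int.fract (((k' : ℕ) : ℝ) * α i) * q⌋₊ :=
    congrArg Fin.val h1
  set a := Int.fract (((k : ℕ) : ℝ) * α i) with ha
  set b := Int.fract (((k' : ℕ) : ℝ) * α i) with hb
  have ha0 : 0 ≤ a * q := mul_nonneg (Int.fract_nonneg _) hqR.le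
  have hb0 : 0 ≤ b * q := mul_nonneg (Int.fract_nonneg _) hqR.le
  have e1 := Nat.floor_le ha0
  have e2 := Nat.lt_floor_add_one (a * q)
  have e3 := Nat.floor_le hb0
  have e4 := Nat.lt_floor_add_one (b * q)
  rw [h2] at e1 e2
  have hab : |(b - a) * q| < 1 := by
    rw [abs_lt]; constructor <;> nlinarith
  have hab' : |b - a| ≤ 1 / q := by
    rw [abs_mul, abs_of_pos hqR] at hab
    rw [le_div_iff₀ hqR]
    exact hab.le
  have e5 : b = ((k' : ℕ) : ℝ) * α i - ⌊((k' : ℕ) : ℝ) * α i⌋ := rfl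
  have e6 : a = ((k : ℕ) : ℝ) * α i - ⌊((k : ℕ) : ℝ) * α i⌋ := rfl
  have e7 : (((k' : ℕ) - (k : ℕ) : ℕ) : ℝ) = ((k' : ℕ) : ℝ) - ((k : ℕ) : ℝ) := by
    rw [Nat.cast_sub hlt.le]
  have : (((k' : ℕ) - (k : ℕ) : ℕ) : ℝ) * α i -
      ((⌊((k' : ℕ) : ℝ) * α i⌋ - ⌊((k : ℕ) : ℝ) * α i⌋ : ℤ) : ℝ) = b - a := by
    rw [e7, e5, e6]; push_cast; ring
  rw [this]; exact hab'

/-- Dirichlet's theorem with a primitive vector `x`, `x 0 > 0` -/
theorem dirichlet_primitive {N : ℕ} (hN : 1 ≤ N) (q : ℕ) (hq : 1 ≤ q) (α : Fin N → ℝ) :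
    ∃ x : Fin (N + 1) → ℤ, Finset.univ.gcd x = 1 ∧ 0 < x 0 ∧
      (∀ i, |α i - x i.succ / x 0| ≤ 1 / q) ∧
      ∀ i, |α i - x i.succ / x 0| ≤ (x 0 : ℝ) ^ (-(1 + 1 / (N : ℝ))) := by
  obtain ⟨j, hj1, hj2, k, hk⟩ := dirichlet q hq α
  set y : Fin (N + 1) → ℤ := Fin.cons (j : ℤ) k with hy
  obtain ⟨x, hx1, hx2⟩ := Finset.extract_gcd (s := (Finset.univ : Finset (Fin (N + 1)))) y
    Finset.univ_nonempty
  set g : ℤ := Finset.univ.gcd y with hg
  have hg0 : 0 ≤ g := Int.nonneg_of_normalize_eq_self Finset.normalize_gcd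
  have h0 : (j : ℤ) = g * x 0 := by
    have := hx1 0 (Finset.mem_univ _)
    rwa [hy, Fin.cons_zero] at this
  have hs : ∀ i : Fin N, k i = g * x i.succ := by
    intro i
    have := hx1 i.succ (Finset.mem_univ _)
    rwa [hy, Fin.cons_succ] at this
  have hj0 : (0 : ℤ) < j := by exact_mod_cast hj1
  have hgx : 0 < g * x 0 := by rw [← h0]; exact hj0
  have hgp : 0 < g := by
    rcases hg0.lt_or_eq with h | h
    · exact h
    · rw [← h, zero_mul] at hgx
      exact absurd hgx (lt_irrefl _)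
  have hx0 : 0 < x 0 := pos_of_mul_pos_right hgx hg0
  have hxj : x 0 ≤ j := by
    rw [h0]
    nlinarith
  have hratio : ∀ i : Fin N, (x i.succ : ℝ) / x 0 = (k i : ℝ) / j := by
    intro i
    have e1 : (k i : ℝ) = (g : ℝ) * x i.succ := by exact_mod_cast hs i
    have e2 : (j : ℝ) = (g : ℝ) * x 0 := by exact_mod_cast h0
    have e3 : (g : ℝ) ≠ 0 := by exact_mod_cast hgp.ne'
    rw [e1, e2, mul_div_mul_left _ _ e3]
  have hjR : (1 : ℝ) ≤ j := by exact_mod_cast hj1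
  have hqR : (1 : ℝ) ≤ q := by exact_mod_cast hq
  have herr : ∀ i : Fin N, |α i - x i.succ / x 0| ≤ 1 / (q * j) := by
    intro i
    rw [hratio i]
    have e1 : α i - (k i : ℝ) / j = (j * α i - k i) / j := by
      field_simp
    rw [e1, abs_div, abs_of_pos (by linarith : (0 : ℝ) < j), div_le_iff₀ (by linarith)]
    refine (hk i).trans (le_of_eq ?_)
    field_simp
  refine ⟨x, hx2, hx0, fun i => (herr i).trans ?_, fun i => (herr i).trans ?_⟩
  · apply one_div_le_one_div_of_le (by linarith)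
    nlinarith
  · have hNR : (0 : ℝ) < N := by exact_mod_cast hN
    have e1 : (j : ℝ) ^ (1 / (N : ℝ)) ≤ q := by
      have h1 : (j : ℝ) ≤ (q : ℝ) ^ N := by exact_mod_cast hj2
      calc (j : ℝ) ^ (1 / (N : ℝ)) ≤ ((q : ℝ) ^ N) ^ (1 / (N : ℝ)) :=
            Real.rpow_le_rpow (by linarith) h1 (by positivity)
        _ = q := by
            rw [← Real.rpow_natCast, ← Real.rpow_mul (by linarith), mul_one_div_cancel hNR.ne',
              Real.rpow_one]
    have e2 : (j : ℝ) ^ (1 + 1 / (N : ℝ)) ≤ q * j := by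
      rw [Real.rpow_add (by linarith), Real.rpow_one, mul_comm]
      exact mul_le_mul_of_nonneg_right e1 (by linarith)
    have e3 : (1 : ℝ) / (q * j) ≤ (j : ℝ) ^ (-(1 + 1 / (N : ℝ))) := by
      rw [Real.rpow_neg (by linarith), one_div]
      exact inv_anti₀ (by positivity) e2
    refine e3.trans ?_
    have hx0R : (0 : ℝ) < x 0 := by exact_mod_cast hx0
    have hxjR : (x 0 : ℝ) ≤ j := by exact_mod_cast hxj
    exact Real.rpow_le_rpow_of_nonpos hx0R hxjR (by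
      have : (0 : ℝ) < 1 / (N : ℝ) := by positivity
      linarith)

end Pool.Agent.K1H84.VT
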