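import Pool.Agent.R479.DB.Lim

set_option autoImplicit false

/-! The dimension of the points `ξ` of `ℝ^I` such that for infinitely many `n` one of a few given
vectors is near `λ_n ξ`. -/

namespace Pool.Agent.K1H84.VT

open MeasureTheory Filter Topology

theorem dim_lim {I : Type} [Fintype I] (lam : ℕ → ℝ) (hpos : ∀ n, 0 < lam n) {τ θ a : ℝ}
    (hτ : 0 ≤ τ) (ha : 0 ≤ a) (hθ : θ < 1) (hlam : ∀ t : ℝ, τ < t → Summable fun n => lam n ^ (-t))
    {X : Type} [Countable X] (v : X → I → ℝ) (G : ℕ → Finset X) {C : ℝ}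
    (hcard : ∀ n, ((G n).card : ℝ) ≤ C * lam n ^ a) {c : ℝ} (hc : 0 < c) :
    dimH {ξ : I → ℝ | {p : (n : ℕ) × {x // x ∈ G n} |
      ∀ i, |v p.2.1 i - lam p.1 * ξ i| ≤ c * lam p.1 ^ θ}.Infinite} ≤
      ENNReal.ofReal ((a + τ) / (1 - θ)) := by
  have h1θ : 0 < 1 - θ := by linarith
  apply ENNReal.le_of_forall_pos_le_add
  intro ε hε _
  have hε' : (0 : ℝ) < ε := by exact_mod_cast hε
  rw [← ENNReal.ofReal_coe_nnreal (p := ε), ← ENNReal.ofReal_add (by positivity) hε'.le]
  set D : ℝ := (a + τ) / (1 - θ) + ε with hD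
  have hD0 : 0 < D := by positivity
  have hDθ : (1 - θ) * D = a + τ + (1 - θ) * ε := by
    rw [hD, mul_add, mul_div_cancel₀ _ h1θ.ne']
  refine Pool.Agent.R479.DB.dimH_limsup (fun p : (n : ℕ) × {x // x ∈ G n} =>
    {ξ : I → ℝ | ∀ i, |v p.2.1 i - lam p.1 * ξ i| ≤ c * lam p.1 ^ θ})
    (fun p => 2 * c * lam p.1 ^ (θ - 1)) (fun p => ?_) (fun p => ?_) hD0 ?_
  · have := hpos p.1
    positivity
  · have hl := hpos p.1
    refine Metric.ediam_le_of_forall_dist_le fun ξ hξ ζ hζ => ?_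
    rw [dist_pi_le_iff (by positivity)]
    intro i
    rw [Real.dist_eq]
    have h1 := abs_le.1 (hξ i)
    have h2 := abs_le.1 (hζ i)
    have h3 : |lam p.1 * (ξ i - ζ i)| ≤ 2 * c * lam p.1 ^ θ := by
      rw [abs_le]
      constructor <;> nlinarith
    rw [abs_mul, abs_of_pos hl] at h3
    have h4 : lam p.1 ^ θ = lam p.1 ^ (θ - 1) * lam p.1 := by
      rw [← Real.rpow_add_one hl.ne']
      congr 1
      ring
    rw [h4] at h3
    have h5 : lam p.1 * |ξ i - ζ i| ≤ lam p.1 * (2 * c * lam p.1 ^ (θ - 1)) := by linarith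
    exact le_of_mul_le_mul_left h5 hl
  · rw [summable_sigma_of_nonneg (fun p => by
      have := hpos p.1
      positivity)]
    refine ⟨fun n => Summable.of_finite, ?_⟩
    have hC : 0 ≤ |C| := abs_nonneg C
    refine Summable.of_nonneg_of_le (fun n => tsum_nonneg fun _ => by
      have := hpos n
      positivity) (fun n => ?_) ((hlam (τ + (1 - θ) * ε) (by nlinarith)).mul_left
        (|C| * (2 * c) ^ D))
    have hl := hpos n
    show ∑' _ : {x // x ∈ G n}, (2 * c * lam n ^ (θ - 1)) ^ D ≤ _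
    rw [tsum_const, Nat.card_eq_fintype_card, Fintype.card_coe, nsmul_eq_mul]
    have e1 : (2 * c * lam n ^ (θ - 1)) ^ D = (2 * c) ^ D * lam n ^ (-((1 - θ) * D)) := by
      rw [Real.mul_rpow (by positivity) (by positivity), ← Real.rpow_mul hl.le]
      congr 2
      ring
    have e2 : lam n ^ a * lam n ^ (-((1 - θ) * D)) = lam n ^ (-(τ + (1 - θ) * ε)) := by
      rw [← Real.rpow_add hl, hDθ]
      congr 1
      ring
    calc ((G n).card : ℝ) * (2 * c * lam n ^ (θ - 1)) ^ D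
        ≤ (|C| * lam n ^ a) * ((2 * c) ^ D * lam n ^ (-((1 - θ) * D))) := by
          rw [e1]
          refine mul_le_mul_of_nonneg_right ((hcard n).trans ?_) (by positivity)
          exact mul_le_mul_of_nonneg_right (le_abs_self C) (by positivity)
      _ = |C| * (2 * c) ^ D * (lam n ^ a * lam n ^ (-((1 - θ) * D))) := by ring
      _ = _ := by rw [e2]

/-- outside of the exceptional set -/
theorem eventually_of_finite {X : Type} (G : ℕ → Finset X) (P : ℕ → X → Prop)
    (h : {p : (n : ℕ) × {x // x ∈ G n} | P p.1 p.2.1}.Finite) :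
    ∀ᶠ n in atTop, ∀ x ∈ G n, ¬ P n x := by
  have h1 := h.image Sigma.fst
  obtain ⟨m, hm⟩ := h1.bddAbove
  filter_upwards [eventually_gt_atTop m] with n hn x hx hP
  have h2 : n ≤ m := hm ⟨⟨n, x, hx⟩, hP, rfl⟩
  omega

end Pool.Agent.K1H84.VT
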